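import Pool.Agent.Helpers25.TransportProof

namespace Pool.Agent.Results.MP_ed2ca9_lc.LogLower

open Pool.Agent.Helpers25.Transport

/-- A lower bound on `R*(a, c)` for general capacity vectors; `R*(c - 1, c) ≥ H_m` if all
`c_i ≥ 2 m + 1`; and `R*(c - 1, c)` is not bounded by an absolute constant. -/
theorem result :
    (∀ (m : ℕ) (a c : Fin m → ℕ) (k q : ℕ), 1 ≤ q → q ≤ m → 1 ≤ k → (∀ i, k ≤ q * a i) →
      ENNReal.ofReal (1 + 2 * (1 - (∑ i, ((c i : ℝ) - a i)) / k) *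
        (((harmonic m : ℚ) : ℝ) - ((harmonic q : ℚ) : ℝ))) ≤ Rstar a c) ∧
    (∀ (m : ℕ) (c : Fin m → ℕ), 1 ≤ m → (∀ i, 2 * m + 1 ≤ c i) →
      ENNReal.ofReal ((harmonic m : ℚ) : ℝ) ≤ Rstar (fun i => c i - 1) c) ∧
    ¬ ∃ K : ℝ, ∀ (m : ℕ) (c : Fin m → ℕ), (∀ i, 1 ≤ c i) →
      Rstar (fun i => c i - 1) c ≤ ENNReal.ofReal K := by
  have h2 : ∀ (m : ℕ) (c : Fin m → ℕ), 1 ≤ m → (∀ i, 2 * m + 1 ≤ c i) →
      ENNReal.ofReal ((harmonic m : ℚ) : ℝ) ≤ Rstar (fun i => c i - 1) c := by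
    intro m c hm hc
    refine le_trans (le_of_eq ?_) (lower (fun i => c i - 1) c (2 * m) 1 le_rfl hm (by omega)
      (fun i => by have := hc i; omega))
    congr 1
    have h3 : ∑ i : Fin m, ((c i : ℝ) - ((c i - 1 : ℕ) : ℝ)) = m := by
      have : ∀ i : Fin m, (c i : ℝ) - ((c i - 1 : ℕ) : ℝ) = 1 := by
        intro i
        have := hc i
        rw [Nat.cast_sub (by omega)]
        simp
      simp [this]
    rw [h3]
    have hm' : (m : ℝ) ≠ 0 := by
      have : 0 < m := hm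
      exact_mod_cast this.ne'
    have h1 : harmonic 1 = 1 := by simp [harmonic]
    rw [h1]
    push_cast
    field_simp
    ring
  refine ⟨fun m a c k q hq hqm hk hka => lower a c k q hq hqm hk hka, h2, ?_⟩
  rintro ⟨K, hK⟩
  obtain ⟨m, hm⟩ := exists_nat_gt (Real.exp K)
  have hm1 : 1 ≤ m := by
    have : (0 : ℝ) < m := lt_trans (Real.exp_pos K) hm
    exact_mod_cast this
  have h3 := le_trans (h2 m (fun _ => 2 * m + 1) hm1 fun _ => le_rfl)
    (hK m (fun _ => 2 * m + 1) fun _ => by omega)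
  have h4 : K < ((harmonic m : ℚ) : ℝ) := by
    refine lt_of_lt_of_le ?_ (log_add_one_le_harmonic m)
    rw [Real.lt_log_iff_exp_lt (by positivity)]
    push_cast
    linarith
  have h5 : (0 : ℝ) < ((harmonic m : ℚ) : ℝ) := by
    have := harmonic_pos (n := m) (by omega)
    exact_mod_cast this
  rw [ENNReal.ofReal_le_ofReal_iff'] at h3
  rcases h3 with h3 | h3 <;> linarith

end Pool.Agent.Results.MP_ed2ca9_lc.LogLower
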